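import Pool.Agent.TH183.QN.Generic
import Pool.Agent.TH183.QN.Two
import Pool.Agent.H932R3.Empty

/-! Emptiness for general monomial collisions from reachable ratios. -/

set_option autoImplicit false

namespace Pool.Agent.TH545.Nag

open Pool.Agent.TH181.NagM Pool.Agent.TH183

universe u

/-- the thresholds for the square classes; for `D = 2` the threshold is `8` -/
theorem exists_t0 : ∃ t0 : ℕ → ℕ, t0 2 = 8 ∧ ∀ D : ℕ, 1 ≤ D → 1 ≤ t0 D ∧ ∀ t : ℕ, t0 D ≤ t →
    Mv 0 1 0 ((D : ℝ) * (t : ℝ) ^ 2) := by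
  classical
  have h : ∀ D : ℕ, ∃ t0 : ℕ, 1 ≤ D → 1 ≤ t0 ∧ ∀ t : ℕ, t0 ≤ t →
      Mv 0 1 0 ((D : ℝ) * (t : ℝ) ^ 2) := by
    intro D
    rcases Nat.lt_or_ge D 1 with hD | hD
    · exact ⟨0, fun h => absurd h (by omega)⟩
    · obtain ⟨t0, h1, h2⟩ := Mv_cls (M := 1) le_rfl hD
      refine ⟨t0, fun _ => ⟨h1, fun t ht => ?_⟩⟩
      have h3 := h2 t ht
      rw [Nat.cast_one] at h3
      rwa [mul_comm]
  choose t1 h1 using h
  refine ⟨fun D => if D = 2 then 8 else t1 D, by simp, fun D hD => ?_⟩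
  by_cases hD2 : D = 2
  · subst hD2
    refine ⟨by simp, fun t ht => ?_⟩
    have h2 := QN.Mv_two (t := t) (by simpa using ht)
    push_cast
    exact h2
  · simp only [if_neg hD2]
    exact h1 D hD

section
open Polynomial Pool.Agent.H932R2 Pool.Agent.H932R3

variable {k : Type u} [Field k]

theorem expand_eq' {g : k[X]} (hg : g.coeff 0 = 0) (F : MvPolynomial (Fin 3) k) (j l : ℕ) :
    PowerSeries.coeff j ((QT.expand (fun i => g.coeff (i + 1)) F).coeff l) =
      ((MvPolynomial.aeval ![C X, C g + X, (1 : k[X][X])] F).coeff l).coeff j := by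
  have hmap : QT.expand (fun k => g.coeff (k + 1)) F =
      Polynomial.map (Polynomial.coeToPowerSeries.ringHom (R := k))
        (MvPolynomial.aeval ![C X, C g + X, (1 : k[X][X])] F) := by
    unfold QT.expand
    rw [MvPolynomial.aeval_def, MvPolynomial.aeval_def, ← Polynomial.coe_mapRingHom,
      MvPolynomial.eval₂_comp_left]
    congr 1
    · ext a n m
      have h1 : (algebraMap k (Polynomial (PowerSeries k))) a = C (PowerSeries.C a) := rfl
      have h2 : (algebraMap k k[X][X]) a = C (C a) := rfl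
      rw [RingHom.comp_apply, h1, h2, Polynomial.coe_mapRingHom, Polynomial.map_C]
      simp
    · have hg' : PowerSeries.X * PowerSeries.mk (fun k => g.coeff (k + 1)) = (g : PowerSeries k) := by
        ext n
        cases n with
        | zero => simp [hg]
        | succ n =>
          rw [PowerSeries.coeff_succ_X_mul, PowerSeries.coeff_mk, Polynomial.coeff_coe]
      funext i
      rw [hg']
      fin_cases i
      · simp
      · simp
      · simp
  rw [hmap, Polynomial.coeff_map]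
  simp

theorem sh_deh (g : k[X]) (F : MvPolynomial (Fin 3) k) :
    sh 0 g (deh k F) = MvPolynomial.aeval ![C X, C g + X, (1 : k[X][X])] F := by
  have h : (sh 0 g).comp ((deh k : MvPolynomial (Fin 3) k →ₐ[k] k[X][X]) :
      MvPolynomial (Fin 3) k →+* k[X][X]) =
      ((MvPolynomial.aeval ![C X, C g + X, (1 : k[X][X])] :
        MvPolynomial (Fin 3) k →ₐ[k] k[X][X]) : MvPolynomial (Fin 3) k →+* k[X][X]) := by
    refine MvPolynomial.ringHom_ext (fun a => ?_) fun i => ?_
    · have h1 : deh k (MvPolynomial.C a) = C (C a) := (deh k).commutes a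
      have h2 : (MvPolynomial.aeval ![C X, C g + X, (1 : k[X][X])] :
        MvPolynomial (Fin 3) k →ₐ[k] k[X][X]) (MvPolynomial.C a) = C (C a) :=
        (MvPolynomial.aeval ![C X, C g + X, (1 : k[X][X])] :
          MvPolynomial (Fin 3) k →ₐ[k] k[X][X]).commutes a
      rw [RingHom.comp_apply]
      show sh 0 g (deh k (MvPolynomial.C a)) = (MvPolynomial.aeval ![C X, C g + X, (1 : k[X][X])] :
        MvPolynomial (Fin 3) k →ₐ[k] k[X][X]) (MvPolynomial.C a)
      rw [h1, h2, sh_C, C_comp]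
    · rw [RingHom.comp_apply]
      show sh 0 g (deh k (MvPolynomial.X i)) = (MvPolynomial.aeval ![C X, C g + X, (1 : k[X][X])] :
        MvPolynomial (Fin 3) k →ₐ[k] k[X][X]) (MvPolynomial.X i)
      rw [MvPolynomial.aeval_X]
      fin_cases i
      · show sh 0 g (deh k (MvPolynomial.X 0)) = C X
        rw [deh_X0, sh_C, X_comp, C_0, add_zero]
      · show sh 0 g (deh k (MvPolynomial.X 1)) = C g + X
        rw [deh_X1, sh_X, C_0, add_zero, comp_X, add_comm]
      · show sh 0 g (deh k (MvPolynomial.X 2)) = 1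
        rw [deh_X2, map_one]
  exact DFunLike.congr_fun h F

/-- emptiness for one collision at the origin -/
theorem exists_noForm [CharZero k] {r m d : ℕ} (hr : 1 ≤ r) (hM : Mv 0 1 0 (r : ℝ))
    (hd : (d : ℝ) * Real.sqrt r < r * m) :
    ∃ g : k[X], NoForm (cIdeal (fun _ : Fin r => (0 : k)) g m) d := by
  classical
  have hr1 : (1 : ℝ) ≤ r := by exact_mod_cast hr
  obtain ⟨D, hD, hD'⟩ := (QN.empW_TT (t := (r : ℝ)) (B := r * m) (by linarith) hM hd).generic hr1
  obtain ⟨c, hc⟩ : ∃ c : ℕ → ℚ, MvPolynomial.eval c D ≠ 0 := by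
    by_contra hcon
    push Not at hcon
    exact hD (MvPolynomial.funext fun x => by rw [hcon x, map_zero])
  let g0 : ℚ[X] := ∑ j ∈ D.vars, C (c j) * X ^ (j + 1)
  have hg0 : ∀ j ∈ D.vars, g0.coeff (j + 1) = c j := by
    intro j hj
    simp only [g0]
    rw [finsetSum_coeff, Finset.sum_eq_single j]
    · simp
    · intro i _ hij
      rw [coeff_C_mul, coeff_X_pow, if_neg (by omega), mul_zero]
    · intro h; exact absurd hj h
  have hg00 : g0.coeff 0 = 0 := by
    simp only [g0]
    rw [finsetSum_coeff]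
    refine Finset.sum_eq_zero fun i _ => ?_
    rw [coeff_C_mul, coeff_X_pow, if_neg (by omega), mul_zero]
  let g : k[X] := g0.map (algebraMap ℚ k)
  have hgc : ∀ i, g.coeff i = algebraMap ℚ k (g0.coeff i) := fun i => by
    simp only [g]
    rw [coeff_map]
  refine ⟨g, fun F hF hF' => ?_⟩
  have hDk : MvPolynomial.aeval (fun i => g.coeff (i + 1)) D ≠ 0 := by
    have h1 : ((MvPolynomial.aeval (fun i => g.coeff (i + 1)) : MvPolynomial ℕ ℚ →ₐ[ℚ] k) :
        MvPolynomial ℕ ℚ →+* k) D = ((algebraMap ℚ k).comp (MvPolynomial.eval c)) D := by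
      refine MvPolynomial.hom_congr_vars ?_ (fun i hi _ => ?_) rfl
      · ext a
        simp
      · rw [RingHom.comp_apply, MvPolynomial.eval_X]
        show (MvPolynomial.aeval (fun i => g.coeff (i + 1)) : MvPolynomial ℕ ℚ →ₐ[ℚ] k)
          (MvPolynomial.X i) = _
        rw [MvPolynomial.aeval_X, hgc, hg0 i hi]
    intro h0
    apply hc
    have h2 : algebraMap ℚ k (MvPolynomial.eval c D) = 0 := by
      rw [← RingHom.comp_apply, ← h1]
      exact h0
    exact (algebraMap ℚ k).injective (by rw [h2, map_zero])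
  have hg1 : g.coeff 0 = 0 := by rw [hgc, hg00, map_zero]
  rw [MvPolynomial.mem_homogeneousSubmodule] at hF
  rw [mem_cIdeal_iff] at hF'
  have h1 := hD' k (fun i => g.coeff (i + 1)) hDk (fun s => MvPolynomial.coeff s.1 F) (by
    intro i j hij
    rw [← QT.coeff_expand_form _ hF i j, expand_eq' hg1, ← sh_deh]
    have h2 : i + r * j < r * m := by exact_mod_cast hij
    have hj : j < m := by
      by_contra hcon
      have : r * m ≤ r * j := Nat.mul_le_mul_left r (not_lt.1 hcon)
      omega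
    refine hF' j hj i ?_
    rw [Nat.mul_sub]
    omega)
  ext s
  rw [MvPolynomial.coeff_zero]
  by_cases hs : s ∈ QT.exps d
  · exact congrFun h1 ⟨s, hs⟩
  · apply hF.coeff_eq_zero
    rwa [QT.mem_exps] at hs

/-- emptiness for general collisions in all degrees below `m √r` -/
theorem collision_mv [CharZero k] {r m : ℕ} (hr : 1 ≤ r) (hm : 0 < m) (hM : Mv 0 1 0 (r : ℝ)) :
    ∃ F : MvPolynomial (Fin (r + 1)) k, F ≠ 0 ∧
      ∀ (c : k) (a : Fin r → k), MvPolynomial.eval (Fin.cons c a : Fin (r + 1) → k) F ≠ 0 →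
        ∀ d : ℕ, (d : ℝ) < m * Real.sqrt r → NoForm (jetIdeal m c a) d := by
  have : Infinite k := CharZero.infinite k
  have hr1 : (1 : ℝ) ≤ r := by exact_mod_cast hr
  have hs : 0 < Real.sqrt r := Real.sqrt_pos.2 (by linarith)
  have hss : Real.sqrt r * Real.sqrt r = r := Real.mul_self_sqrt (by linarith)
  have hm' : (0 : ℝ) < m := by exact_mod_cast hm
  -- the largest degree
  obtain ⟨d0, hd0, hmax⟩ : ∃ d0 : ℕ, (d0 : ℝ) < m * Real.sqrt r ∧
      ∀ d : ℕ, (d : ℝ) < m * Real.sqrt r → d ≤ d0 := by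
    have hpos : 0 < m * Real.sqrt r := by positivity
    have h1 : 0 < ⌈m * Real.sqrt r⌉₊ := Nat.ceil_pos.2 hpos
    refine ⟨⌈m * Real.sqrt r⌉₊ - 1, ?_, fun d hd => ?_⟩
    · have h2 : ((⌈m * Real.sqrt r⌉₊ - 1 : ℕ) : ℝ) = (⌈m * Real.sqrt r⌉₊ : ℝ) - 1 := by
        rw [Nat.cast_sub h1]
        simp
      rw [h2]
      have := Nat.ceil_lt_add_one hpos.le
      linarith
    · have h2 : (d : ℝ) < ⌈m * Real.sqrt r⌉₊ := lt_of_lt_of_le hd (Nat.le_ceil _)
      have h3 : d < ⌈m * Real.sqrt r⌉₊ := by exact_mod_cast h2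
      omega
  obtain ⟨g, hg⟩ := exists_noForm (k := k) (m := m) (d := d0) hr hM (by
    have h1 := mul_lt_mul_of_pos_right hd0 hs
    calc (d0 : ℝ) * Real.sqrt r < m * Real.sqrt r * Real.sqrt r := h1
      _ = (Real.sqrt r * Real.sqrt r) * m := by ring
      _ = r * m := by rw [hss])
  obtain ⟨F, hF, hF'⟩ := collision_open (r := r) (m := m) (d := d0) hr (c1 := (0 : k)) (g := g) hg.rk
  exact ⟨F, hF, fun c a hc d hd => (hF' c a hc).mono (hmax d hd)⟩

end

end Pool.Agent.TH545.Nag
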