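import Pool.Agent.TH545.Nag.Euc
import Pool.Agent.TH698.NagT3

/-! Nef classes on the boundary of the positive cone from the moves between shapes. -/

set_option autoImplicit false

namespace Pool.Agent.TH545.Nag

open Finset Pool.Agent.TH181.NagM
open Pool.Agent.H350R3 Pool.Agent.H350R3.GR
open Pool.Agent.TH176.Nag (LM pr Emp Reg PF_desc2 toL toL_support toL_eq_zero LM_of_pt)

theorem finite_tri (d : ℕ) :
    ({m : ℤ × ℤ | 0 ≤ m.1 ∧ 0 ≤ m.2 ∧ m.1 + m.2 ≤ (d : ℤ)}).Finite := by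
  apply Set.Finite.subset (Set.finite_Icc ((0, 0) : ℤ × ℤ) ((d : ℤ), (d : ℤ)))
  rintro ⟨a, b⟩ ⟨h1, h2, h3⟩
  simp only at h1 h2 h3
  rw [Set.mem_Icc, Prod.mk_le_mk, Prod.mk_le_mk]
  exact ⟨⟨h1, h2⟩, by omega, by omega⟩

theorem nbEmp_of_Emp {n d : ℕ} {w : Fin n → ℕ}
    (h : Emp w {m : ℤ × ℤ | 0 ≤ m.1 ∧ 0 ≤ m.2 ∧ m.1 + m.2 ≤ (d : ℤ)}) :
    ∃ x : Fin n → Fin (1 + 1) → ℂ, NB.Emp w x d := by
  obtain ⟨z, hz⟩ := Pool.Agent.TH698.NagT3.exists_indep (Fin n × Fin 2)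
  refine ⟨fun i j => z (i, j), fun f hf hfd => ?_⟩
  have hxy : AlgebraicIndependent ℚ (fun q : Fin n × Fin 2 =>
      ![(fun i => z (i, 0)) q.1, (fun i => z (i, 1)) q.1] q.2) := by
    have e : (fun q : Fin n × Fin 2 => (![(fun i => z (i, 0)) q.1, (fun i => z (i, 1)) q.1] :
        Fin 2 → ℂ) q.2) = z := by
      funext q
      obtain ⟨i, j⟩ := q
      fin_cases j <;> rfl
    rw [e]; exact hz
  have hx : ∀ i, z (i, 0) ≠ 0 := fun i => hz.ne_zero (i, 0)
  have hy : ∀ i, z (i, 1) ≠ 0 := fun i => hz.ne_zero (i, 1)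
  have key := Emp_generic (finite_tri d) (fun m hm => ⟨hm.1, hm.2.1⟩) h
    (x := fun i => z (i, 0)) (y := fun i => z (i, 1)) hxy
  have h0 := key (toL ℂ f).coeff (by
    apply toL_support
    intro s hs
    have h3 := hfd s hs
    rw [Finsupp.degree_eq_sum, Fin.sum_univ_two] at h3
    exact h3) (fun i => LM_of_pt (hx i) (hy i) (P := fun j => z (i, j)) rfl rfl (hf i))
  exact toL_eq_zero h0


/-- the class `√(A B) H - ∑ L_j E_j` is nef if `A / B` is reached by the moves -/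
theorem nf_mv {A B : ℕ} (hA : 0 < A) (hB : 0 < B) {L : List ℕ} (hL : Mult A B L)
    (h : Mv 0 1 0 ((A : ℝ) / B)) :
    NB.Nf ℂ (L.map fun m : ℕ => (m : ℝ)).get (Real.sqrt (A * B)) := by
  refine nf_tr (ι := Fin L.length) (t := fun j => (L.get j : ℝ))
    (finCongr (List.length_map (fun m : ℕ => (m : ℝ))).symm) (fun i => by simp) ?_
  have hA' : (0 : ℝ) < A := by exact_mod_cast hA
  have hB' : (0 : ℝ) < B := by exact_mod_cast hB
  have hs : 0 < Real.sqrt (A * B) := Real.sqrt_pos.2 (by positivity)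
  have hss : Real.sqrt (0 + (A : ℝ) / B) * B = Real.sqrt (A * B) := by
    have h1 : (A : ℝ) * B = (B : ℝ) ^ 2 * ((A : ℝ) / B) := by field_simp
    rw [h1, Real.sqrt_mul (by positivity), Real.sqrt_sq hB'.le, zero_add, mul_comm]
  intro w d hd
  let sz : (Fin L.length → ℕ) → ℝ := fun w => (∑ j, (L.get j : ℝ) * w j) / Real.sqrt (A * B)
  have hsz : ∀ (k : ℕ) (w : Fin L.length → ℕ), sz (fun i => k * w i) = k * sz w := by
    intro k w
    simp only [sz]
    rw [← mul_div_assoc, Finset.mul_sum]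
    congr 1
    refine Finset.sum_congr rfl fun j _ => ?_
    push_cast
    ring
  have hfin : Shp (fun w S => Emp w S) sz 0 ((A : ℝ) / B) := by
    intro w E hE hEw α
    apply Emp_euclid hA hB hL
    simp only [sz] at hEw
    rw [lt_div_iff₀ hs] at hEw
    calc (α + E * Real.sqrt (0 + (A : ℝ) / B) - α) * B = E * (Real.sqrt (0 + (A : ℝ) / B) * B) := by
          ring
      _ = E * Real.sqrt (A * B) := by rw [hss]
      _ < _ := hEw
  have h1 : Shp (fun w S => Emp w S) sz 0 1 := h.closed (NagSys.Emp.closed hsz) hfin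
  have h2 : (d : ℝ) < sz w := by
    simp only [sz]
    rw [lt_div_iff₀ hs, mul_comm]
    exact hd
  obtain ⟨E, hE1, hE2⟩ := exists_between h2
  have hE0 : 0 < E := lt_of_le_of_lt (Nat.cast_nonneg d) hE1
  refine nbEmp_of_Emp ((h1 w E hE0 hE2 0).mono ?_)
  rintro ⟨a, b⟩ ⟨h3, h4, h5⟩
  simp only at h3 h4 h5
  refine ⟨h4, ?_, ?_⟩
  · simp only
    have : (0 : ℝ) ≤ a := by exact_mod_cast h3
    linarith
  · simp only
    have h6 : (a : ℝ) + b ≤ d := by exact_mod_cast h5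
    rw [zero_add (1 : ℝ), Real.sqrt_one]
    linarith

end Pool.Agent.TH545.Nag
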