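import Pool.Agent.TH15.NagEmpGeneric
import Pool.Agent.TH176.Nag.Main

/-! Emptiness at one configuration implies emptiness at algebraically independent points over
every field of characteristic zero, in any universe. -/

set_option autoImplicit false

namespace Pool.Agent.TH545.Nag

open Finset Pool.Agent.TH176.Nag

universe u

/-- the entries of the matrix of conditions -/
noncomputable def ent {ι : Type} (S : Set (ℤ × ℤ)) (r : ι × ℕ × ℕ) (m : S) :
    MvPolynomial (ι × Fin 2) ℚ :=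
  MvPolynomial.C (((m : ℤ × ℤ).1 : ℚ) ^ r.2.1 * ((m : ℤ × ℤ).2 : ℚ) ^ r.2.2) *
    (MvPolynomial.X (r.1, 0) ^ (m : ℤ × ℤ).1.toNat * MvPolynomial.X (r.1, 1) ^ (m : ℤ × ℤ).2.toNat)

theorem ent_eval {ι : Type} {S : Set (ℤ × ℤ)} (hpos : ∀ m ∈ S, 0 ≤ m.1 ∧ 0 ≤ m.2)
    {L : Type u} [Field L] [CharZero L] (x y : ι → L) (r : ι × ℕ × ℕ) (m : S) :
    MvPolynomial.aeval (fun q : ι × Fin 2 => ![x q.1, y q.1] q.2) (ent S r m) =
      (((m : ℤ × ℤ).1 : L) ^ r.2.1 * ((m : ℤ × ℤ).2 : L) ^ r.2.2) *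
        (x r.1 ^ (m : ℤ × ℤ).1 * y r.1 ^ (m : ℤ × ℤ).2) := by
  obtain ⟨h1, h2⟩ := hpos m m.2
  simp only [ent, map_mul, map_pow, MvPolynomial.aeval_X, MvPolynomial.aeval_C]
  have e1 : x r.1 ^ (m : ℤ × ℤ).1 = x r.1 ^ (m : ℤ × ℤ).1.toNat := by
    conv_lhs => rw [← Int.toNat_of_nonneg h1]
    rw [zpow_natCast]
  have e2 : y r.1 ^ (m : ℤ × ℤ).2 = y r.1 ^ (m : ℤ × ℤ).2.toNat := by
    conv_lhs => rw [← Int.toNat_of_nonneg h2]
    rw [zpow_natCast]
  rw [e1, e2]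
  simp

theorem pr_eq_sum {S : Set (ℤ × ℤ)} [Fintype S] {L : Type u} [Field L] (x y : L)
    (f : (ℤ × ℤ) →₀ L) (hf : (↑f.support : Set (ℤ × ℤ)) ⊆ S) (a b : ℕ) :
    pr f x y (fun q : L × L => q.1 ^ a * q.2 ^ b) =
      ∑ m : S, (((m : ℤ × ℤ).1 : L) ^ a * ((m : ℤ × ℤ).2 : L) ^ b) *
        (x ^ (m : ℤ × ℤ).1 * y ^ (m : ℤ × ℤ).2) * f m := by
  classical
  unfold pr
  rw [Finsupp.sum_of_support_subset f (s := S.toFinset) (fun m hm => by
    rw [Set.mem_toFinset]; exact hf hm) _ (by intro m _; ring)]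
  rw [Finset.sum_subtype S.toFinset (p := fun m => m ∈ S) (fun m => Set.mem_toFinset)]
  refine Finset.sum_congr (by congr 1) fun m _ => ?_
  ring

theorem Emp_generic {ι : Type} [Finite ι] {w : ι → ℕ} {S : Set (ℤ × ℤ)} (hfin : S.Finite)
    (hpos : ∀ m ∈ S, 0 ≤ m.1 ∧ 0 ≤ m.2) (h : Emp w S) {L : Type u} [Field L] [CharZero L]
    {x y : ι → L}
    (hxy : AlgebraicIndependent ℚ (fun q : ι × Fin 2 => ![x q.1, y q.1] q.2)) :
    ∀ f : (ℤ × ℤ) →₀ L, (↑f.support : Set (ℤ × ℤ)) ⊆ S → (∀ i, LM f (x i) (y i) (w i)) → f = 0 := by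
  classical
  obtain ⟨K, _, _, X, Y, hX, hY, hK⟩ := h
  have : Fintype S := hfin.fintype
  let R := {r : ι × ℕ × ℕ // r.2.1 + r.2.2 < w r.1}
  obtain ⟨a, ha⟩ := Pool.Agent.TH15.Nag.exists_rows (fun (r : R) (m : S) =>
      (((m : ℤ × ℤ).1 : K) ^ r.1.2.1 *
      ((m : ℤ × ℤ).2 : K) ^ r.1.2.2) * (X r.1.1 ^ (m : ℤ × ℤ).1 * Y r.1.1 ^ (m : ℤ × ℤ).2)) (by
    intro c hc
    let g : ℤ × ℤ → K := fun m => if hm : m ∈ S then c ⟨m, hm⟩ else 0
    let f : (ℤ × ℤ) →₀ K := Finsupp.onFinset S.toFinset g (by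
      intro m hm
      rw [Set.mem_toFinset]
      by_contra hn
      exact hm (dif_neg hn))
    have hfS : (↑f.support : Set (ℤ × ℤ)) ⊆ S := by
      intro m hm
      by_contra hn
      have : f m ≠ 0 := Finsupp.mem_support_iff.1 hm
      exact this (dif_neg hn)
    have hfc : ∀ m : S, f m = c m := fun m => dif_pos m.2
    have hf0 : f = 0 := by
      apply hK f hfS
      intro i
      apply LM_of_mono
      intro p q hpq
      rw [pr_eq_sum (X i) (Y i) f hfS p q]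
      rw [← hc ⟨(i, p, q), hpq⟩]
      refine Finset.sum_congr rfl fun m _ => ?_
      rw [hfc]
    funext m
    rw [← hfc, hf0]
    rfl)
  -- the polynomial minor
  let D : MvPolynomial (ι × Fin 2) ℚ := (Matrix.of fun j m => ent S (a j).1 m).det
  have hDK : MvPolynomial.aeval (fun q : ι × Fin 2 => ![X q.1, Y q.1] q.2) D =
        (Matrix.of fun (j : S) (m : S) => (((m : ℤ × ℤ).1 : K) ^ (a j).1.2.1 *
          ((m : ℤ × ℤ).2 : K) ^ (a j).1.2.2) * (X (a j).1.1 ^ (m : ℤ × ℤ).1 *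
          Y (a j).1.1 ^ (m : ℤ × ℤ).2)).det := by
    rw [AlgHom.map_det]
    congr 1
    ext j m
    exact ent_eval hpos X Y (a j).1 m
  have hDL : MvPolynomial.aeval (fun q : ι × Fin 2 => ![x q.1, y q.1] q.2) D =
        (Matrix.of fun (j : S) (m : S) => (((m : ℤ × ℤ).1 : L) ^ (a j).1.2.1 *
          ((m : ℤ × ℤ).2 : L) ^ (a j).1.2.2) * (x (a j).1.1 ^ (m : ℤ × ℤ).1 *
          y (a j).1.1 ^ (m : ℤ × ℤ).2)).det := by
    rw [AlgHom.map_det]
    congr 1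
    ext j m
    exact ent_eval hpos x y (a j).1 m
  have hDne : D ≠ 0 := by
    intro h0
    apply ha
    rw [← hDK, h0, map_zero]
  have hDC : MvPolynomial.aeval (fun q : ι × Fin 2 => ![x q.1, y q.1] q.2) D ≠ 0 := by
    intro h0
    exact hDne ((injective_iff_map_eq_zero _).1 hxy D h0)
  rw [hDL] at hDC
  intro f hfS hfL
  have hvec : (fun m : S => f m) = 0 := by
    apply Matrix.eq_zero_of_mulVec_eq_zero hDC
    funext j
    have h1 := pr_eq_sum (x (a j).1.1) (y (a j).1.1) f hfS (a j).1.2.1 (a j).1.2.2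
    rw [hfL (a j).1.1 _ (mem_PF_mono (a j).2)] at h1
    rw [Matrix.mulVec, dotProduct]
    exact h1.symm
  ext m
  by_cases hm : m ∈ S
  · exact congrFun hvec ⟨m, hm⟩
  · by_contra hn
    exact hm (hfS (Finsupp.mem_support_iff.2 hn))

section final
open MvPolynomial Pool.Agent.H932R5

variable {k : Type u} [Field k]

/-- dehomogenization of forms vanishing at a point -/
theorem deh_mem_pt {P : Fin 2 → k} {m : ℕ} {F : MvPolynomial (Fin 3) k}
    (hF : F ∈ (hI (E := 1) P) ^ m) : deh k 1 F ∈ (pt (E := 1) P) ^ m := by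
  have h1 : Ideal.map (deh k 1 : MvPolynomial (Fin 3) k →+* MvPolynomial (Fin 2) k)
      (hI (E := 1) P) ≤ pt (E := 1) P := by
    unfold hI pt
    rw [Ideal.map_span, Ideal.span_le]
    rintro _ ⟨_, ⟨j, rfl⟩, rfl⟩
    refine Ideal.subset_span ⟨j, ?_⟩
    show X j - C (P j) = deh k 1 (X j.succ - C (P j) * X 0)
    rw [map_sub, map_mul, deh_X, deh_C, deh_X0, mul_one]
  have h2 := Ideal.mem_map_of_mem (deh k 1 : MvPolynomial (Fin 3) k →+* MvPolynomial (Fin 2) k) hF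
  rw [Ideal.map_pow] at h2
  exact Ideal.pow_right_mono h1 m h2

/-- the sum of the multiplicities is at most `C d` at generic points if all plane systems with
larger sum are empty somewhere -/
theorem sum_le_of_Emp [CharZero k] {n : ℕ} (C : ℝ)
    (h : ∀ (e : ℕ) (w : Fin n → ℕ), C * e < ∑ i, (w i : ℝ) →
      Emp w {m : ℤ × ℤ | 0 ≤ m.1 ∧ 0 ≤ m.2 ∧ m.1 + m.2 ≤ (e : ℤ)})
    {P : Fin n → Fin 2 → k}
    (hP : AlgebraicIndependent (⊥ : Subfield k) (fun q : Fin n × Fin 2 => P q.1 q.2))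
    {d : ℕ} {m : Fin n → ℕ} {F : MvPolynomial (Fin 3) k} (hF : F ≠ 0) (hFd : F.IsHomogeneous d)
    (hm : ∀ i, F ∈ (hI (E := 1) (P i)) ^ (m i)) :
    ∑ i, (m i : ℝ) ≤ C * d := by
  by_contra hcon
  rw [not_le] at hcon
  have hE := h d m hcon
  have hind' : AlgebraicIndependent ℚ (fun q : Fin n × Fin 2 => P q.1 q.2) :=
    hP.restrictScalars (algebraMap ℚ (⊥ : Subfield k)).injective
  have hxy : AlgebraicIndependent ℚ (fun q : Fin n × Fin 2 =>
      ![(fun i => P i 0) q.1, (fun i => P i 1) q.1] q.2) := by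
    have e : (fun q : Fin n × Fin 2 => (![(fun i => P i 0) q.1, (fun i => P i 1) q.1] :
        Fin 2 → k) q.2) = (fun q : Fin n × Fin 2 => P q.1 q.2) := by
      funext q
      obtain ⟨i, j⟩ := q
      fin_cases j <;> rfl
    rw [e]; exact hind'
  have hx : ∀ i, P i 0 ≠ 0 := fun i => hind'.ne_zero (i, 0)
  have hy : ∀ i, P i 1 ≠ 0 := fun i => hind'.ne_zero (i, 1)
  have hfin : ({m : ℤ × ℤ | 0 ≤ m.1 ∧ 0 ≤ m.2 ∧ m.1 + m.2 ≤ (d : ℤ)}).Finite := by
    apply Set.Finite.subset (Set.finite_Icc ((0, 0) : ℤ × ℤ) ((d : ℤ), (d : ℤ)))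
    rintro ⟨a, b⟩ ⟨h1, h2, h3⟩
    simp only at h1 h2 h3
    rw [Set.mem_Icc, Prod.mk_le_mk, Prod.mk_le_mk]
    exact ⟨⟨h1, h2⟩, by omega, by omega⟩
  have key := Emp_generic hfin (fun m hm => ⟨hm.1, hm.2.1⟩) hE
    (x := fun i => P i 0) (y := fun i => P i 1) hxy
  have h0 := key (toL k (deh k 1 F)).coeff (by
    apply toL_support
    intro s hs
    have h2 := deh_mem (E := 1) hFd
    rw [mem_mspan] at h2
    have h3 : Finsupp.degree s ≤ d := h2 s hs
    rw [Finsupp.degree_eq_sum, Fin.sum_univ_two] at h3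
    exact h3) (by
    intro i
    exact LM_of_pt (hx i) (hy i) (P := P i) rfl rfl (deh_mem_pt (hm i)))
  exact hF (deh_inj (E := 1) hFd (toL_eq_zero h0))

end final

end Pool.Agent.TH545.Nag
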