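import Pool.Agent.H350R3.GR.Glue
import Pool.Agent.TH181.Nag.Sys
import Pool.Agent.TH545.Nag.Gen

/-! Emptiness of the right triangle of slope `A / B` for the weights of the Euclidean subdivision
of the rectangle with sides `A` and `B`. -/

set_option autoImplicit false

namespace Pool.Agent.TH545.Nag

open Finset Polynomial Pool.Agent.TH181.NagM
open Pool.Agent.H350R3 Pool.Agent.H350R3.GR
open Pool.Agent.H932R2 (sh sh_X sh_C sh_sh cIdeal mem_cIdeal_iff coeff_mon)
open Pool.Agent.H932R3 (ptJ vIdeal)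
open Pool.Agent.H350R3.QM (Wt mem_Wt)
open Pool.Agent.TH176.Nag (LM pr Emp Reg PF_desc2)

section field

variable {K : Type} [Field K]

theorem coeff_sh_mon (a b : K) (p : ℕ × ℕ) (i l : ℕ) :
    ((sh a (C b) (H932R2.mon K p)).coeff l).coeff i =
      (a ^ (p.1 - i) * (p.1.choose i : K)) * (b ^ (p.2 - l) * (p.2.choose l : K)) := by
  have h1 : sh a (C b) (H932R2.mon K p) = C ((X + C a) ^ p.1) * (X + C (C b)) ^ p.2 := by
    rw [H932R2.mon, map_mul, sh_C, map_pow, sh_X, pow_comp, X_comp, C_comp]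
  rw [h1, coeff_C_mul, coeff_X_add_C_pow]
  have h2 : (C b : K[X]) ^ (p.2 - l) * ((p.2.choose l : ℕ) : K[X]) =
      C (b ^ (p.2 - l) * ((p.2.choose l : ℕ) : K)) := by
    rw [C_mul, C_pow, C_eq_natCast]
  rw [h2, coeff_mul_C, coeff_X_add_C_pow]

theorem coeff_smul_K (c : K) (F : K[X][X]) (i l : ℕ) :
    ((c • F).coeff l).coeff i = c * (F.coeff l).coeff i := by
  rw [coeff_smul, coeff_smul, smul_eq_mul]

theorem smul_eq_CC (c : K) (F : K[X][X]) : c • F = C (C c) * F := by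
  ext l i
  rw [coeff_smul_K, coeff_C_mul, coeff_C_mul]

theorem sh_smul_K (a b c : K) (F : K[X][X]) : sh a (C b) (c • F) = c • sh a (C b) F := by
  rw [smul_eq_CC, smul_eq_CC, map_mul, sh_C, C_comp]

/-- the polynomial attached to a Laurent polynomial with nonnegative exponents -/
noncomputable def toKXX (f : (ℤ × ℤ) →₀ K) : K[X][X] :=
  ∑ m ∈ f.support, (f m) • H932R2.mon K (m.1.toNat, m.2.toNat)

theorem coeff_sh_toKXX (f : (ℤ × ℤ) →₀ K) (a b : K) (i l : ℕ) :
    ((sh a (C b) (toKXX f)).coeff l).coeff i = ∑ m ∈ f.support, f m *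
      ((a ^ (m.1.toNat - i) * (m.1.toNat.choose i : K)) *
        (b ^ (m.2.toNat - l) * (m.2.toNat.choose l : K))) := by
  unfold toKXX
  rw [map_sum, finsetSum_coeff, finsetSum_coeff]
  refine Finset.sum_congr rfl fun m _ => ?_
  rw [sh_smul_K, coeff_smul_K, coeff_sh_mon]

theorem coeff_toKXX {f : (ℤ × ℤ) →₀ K} (hpos : ∀ m ∈ f.support, 0 ≤ m.1 ∧ 0 ≤ m.2) {m : ℤ × ℤ}
    (hm : m ∈ f.support) :
    ((toKXX f).coeff m.2.toNat).coeff m.1.toNat = f m := by
  unfold toKXX
  rw [finsetSum_coeff, finsetSum_coeff, Finset.sum_eq_single m]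
  · rw [coeff_smul_K, coeff_mon, if_pos rfl, mul_one]
  · intro m' hm' hne
    rw [coeff_smul_K, coeff_mon, if_neg, mul_zero]
    intro h
    apply hne
    obtain ⟨h1, h2⟩ := hpos m' hm'
    obtain ⟨h3, h4⟩ := hpos m hm
    rw [Prod.mk.injEq] at h
    ext
    · omega
    · omega
  · intro h; exact absurd hm h

theorem prod_desc {n : ℤ} (hn : 0 ≤ n) (i : ℕ) :
    ∏ t ∈ range i, ((n : K) - (t : K)) = (i.factorial : K) * (n.toNat.choose i : K) := by
  obtain ⟨k, rfl⟩ := Int.eq_ofNat_of_zero_le hn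
  rw [Int.toNat_natCast, Int.cast_natCast]
  induction i with
  | zero => simp
  | succ i ih =>
    rw [prod_range_succ, ih]
    rcases le_or_gt i k with h | h
    · have h1 : ((k.choose (i + 1) * (i + 1) : ℕ) : K) = ((k.choose i * (k - i) : ℕ) : K) := by
        rw [Nat.choose_succ_right_eq]
      rw [Nat.factorial_succ]
      push_cast [Nat.cast_sub h] at h1 ⊢
      linear_combination -(i.factorial : K) * h1
    · rw [Nat.choose_eq_zero_of_lt h, Nat.choose_eq_zero_of_lt (by omega)]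
      simp

theorem pow_split {x : K} (hx : x ≠ 0) {n : ℤ} (hn : 0 ≤ n) (i : ℕ) :
    (n.toNat.choose i : K) * x ^ n = x ^ i * (x ^ (n.toNat - i) * (n.toNat.choose i : K)) := by
  rcases le_or_gt i n.toNat with h | h
  · have h1 : x ^ n = x ^ i * x ^ (n.toNat - i) := by
      rw [← pow_add, Nat.add_sub_cancel' h, ← zpow_natCast, Int.toNat_of_nonneg hn]
    rw [h1]; ring
  · rw [Nat.choose_eq_zero_of_lt h]; simp

theorem mem_of_LM [CharZero K] {f : (ℤ × ℤ) →₀ K}
    (hpos : ∀ m ∈ f.support, 0 ≤ m.1 ∧ 0 ≤ m.2) {x y : K} (hx : x ≠ 0) (hy : y ≠ 0) {w : ℕ}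
    (h : LM f x y w) : toKXX f ∈ cIdeal (fun _ : Fin 1 => x) (C y) w := by
  rw [mem_cIdeal_iff]
  intro l hl i hi
  have h1 := h _ (PF_desc2 (K := K) (a := i) (b := l) (w := w) (by omega))
  rw [coeff_sh_toKXX]
  have hc : (x ^ i * y ^ l * ((i.factorial : K) * (l.factorial : K))) ≠ 0 := by
    have h2 : (i.factorial : K) ≠ 0 := by exact_mod_cast i.factorial_ne_zero
    have h3 : (l.factorial : K) ≠ 0 := by exact_mod_cast l.factorial_ne_zero
    exact mul_ne_zero (mul_ne_zero (pow_ne_zero _ hx) (pow_ne_zero _ hy)) (mul_ne_zero h2 h3)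
  apply mul_left_cancel₀ hc
  rw [mul_zero, ← h1, Finset.mul_sum]
  unfold pr Finsupp.sum
  refine Finset.sum_congr rfl fun m hm => ?_
  obtain ⟨hm1, hm2⟩ := hpos m hm
  simp only
  rw [prod_desc hm1, prod_desc hm2]
  linear_combination (-(f m) * (i.factorial : K) * (l.factorial : K) * (x ^ i *
    (x ^ (m.1.toNat - i) * (m.1.toNat.choose i : K)))) * pow_split hy hm2 l -
    (f m) * (i.factorial : K) * (l.factorial : K) * ((m.2.toNat.choose l : K) * y ^ m.2) *
      pow_split hx hm1 i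

/-- An element with coefficients in `M` is a combination of monomials. -/
theorem eq_sum_mon {G : K[X][X]} {M : Finset (ℕ × ℕ)}
    (h : ∀ i l, (G.coeff l).coeff i ≠ 0 → (i, l) ∈ M) :
    G = ∑ u ∈ M, ((G.coeff u.2).coeff u.1) • H932R2.mon K u := by
  classical
  ext l i
  rw [finsetSum_coeff, finsetSum_coeff]
  by_cases hm : (i, l) ∈ M
  · rw [Finset.sum_eq_single (i, l)]
    · rw [coeff_smul_K, coeff_mon, if_pos rfl, mul_one]
    · intro u _ hne
      rw [coeff_smul_K, coeff_mon, if_neg hne, mul_zero]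
    · intro h'; exact absurd hm h'
  · have h0 : (G.coeff l).coeff i = 0 := by
      by_contra hne
      exact hm (h i l hne)
    rw [h0]
    symm
    refine Finset.sum_eq_zero fun u hu => ?_
    rw [coeff_smul_K, coeff_mon, if_neg, mul_zero]
    rintro rfl
    exact hm hu

theorem sh_sh_C (a b a' b' : K) (F : K[X][X]) :
    sh a (C b) (sh a' (C b') F) = sh (a + a') (C (b + b')) F := by
  have h : (sh a (C b)).comp (sh a' (C b')) = sh (a + a') (C (b + b')) := by
    refine ringHom_ext' (ringHom_ext' ?_ ?_) ?_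
    · ext c
      simp [sh_C]
    · simp only [RingHom.coe_comp, Function.comp_apply, sh_C, X_comp, C_add, map_add, C_comp]
      ring
    · simp only [RingHom.coe_comp, Function.comp_apply, sh_X, C_comp, map_add, sh_C, add_comp]
      ring
  exact DFunLike.congr_fun h F

theorem Emp_of_Indep [CharZero K] {n : ℕ} {w : Fin n → ℕ} {J : Ideal K[X][X]}
    {M : Finset (ℕ × ℕ)} (hJ : ∃ P0 : Fin n → Fin 2 → K, ptJ P0 w ≤ J) (hI : Indep J M)
    (hM : ∀ i l i' l', (i, l) ∈ M → i' ≤ i → l' ≤ l → (i', l') ∈ M) {S : Set (ℤ × ℤ)}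
    (hS : ∀ m ∈ S, 0 ≤ m.1 ∧ 0 ≤ m.2 ∧ (m.1.toNat, m.2.toNat) ∈ M) : Emp w S := by
  classical
  obtain ⟨P0, hP0⟩ := hJ
  obtain ⟨c, hc⟩ := Infinite.exists_notMem_finset
    ((Finset.univ.image fun q : Fin n × Fin 2 => -(P0 q.1 q.2)))
  have hc' : ∀ i j, P0 i j + c ≠ 0 := by
    intro i j h0
    apply hc
    rw [Finset.mem_image]
    exact ⟨(i, j), Finset.mem_univ _, by linear_combination -h0⟩
  refine ⟨K, inferInstance, inferInstance, fun i => P0 i 0 + c, fun i => P0 i 1 + c,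
    fun i => hc' i 0, fun i => hc' i 1, fun f hfS hfL => ?_⟩
  have hpos : ∀ m ∈ f.support, 0 ≤ m.1 ∧ 0 ≤ m.2 := fun m hm =>
    ⟨(hS m (hfS hm)).1, (hS m (hfS hm)).2.1⟩
  set G := sh c (C c) (toKXX f) with hG
  have hGJ : G ∈ J := by
    apply hP0
    unfold ptJ vIdeal
    rw [Ideal.mem_iInf]
    intro i
    have h1 := mem_of_LM hpos (hc' i 0) (hc' i 1) (hfL i)
    rw [mem_cIdeal_iff] at h1 ⊢
    intro l hl k hk
    rw [hG, sh_sh_C]
    exact h1 l hl k hk
  have hsupp : ∀ i l, (G.coeff l).coeff i ≠ 0 → (i, l) ∈ M := by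
    intro i l hne
    rw [hG, coeff_sh_toKXX] at hne
    obtain ⟨m, hm, h1⟩ := Finset.exists_ne_zero_of_sum_ne_zero hne
    refine hM _ _ _ _ (hS m (hfS hm)).2.2 ?_ ?_
    · by_contra hlt
      rw [Nat.choose_eq_zero_of_lt (by omega : m.1.toNat < i)] at h1
      simp at h1
    · by_contra hlt
      rw [Nat.choose_eq_zero_of_lt (by omega : m.2.toNat < l)] at h1
      simp at h1
  have hG0 : G = 0 := by
    have h1 := eq_sum_mon hsupp
    rw [h1]
    refine Finset.sum_eq_zero fun u hu => ?_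
    rw [hI (fun u => (G.coeff u.2).coeff u.1) (by rw [← h1]; exact hGJ) u hu, zero_smul]
  have hF0 : toKXX f = 0 := by
    rw [← sh_sh c (C c) (toKXX f), ← hG, hG0, map_zero]
  ext m
  by_contra hne
  have hm : m ∈ f.support := Finsupp.mem_support_iff.2 hne
  apply hne
  rw [← coeff_toKXX hpos hm, hF0]
  simp

end field

/-- the right triangle for the weights of the Euclidean subdivision -/
theorem Emp_euclid {A B : ℕ} (hA : 0 < A) (hB : 0 < B) {L : List ℕ} (hL : Mult A B L)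
    (w : Fin L.length → ℕ) {α β : ℝ}
    (h : (β - α) * B < ∑ j, (L.get j : ℝ) * w j) :
    Emp w (Reg α β 0 ((A : ℝ) / B)) := by
  classical
  have hB' : (0 : ℝ) < B := by exact_mod_cast hB
  have hA' : (0 : ℝ) < A := by exact_mod_cast hA
  have ht : (0 : ℝ) < (A : ℝ) / B := by positivity
  obtain ⟨S, hS⟩ : ∃ S, S = ∑ j, L.get j * w j := ⟨_, rfl⟩
  have hSR : ((S : ℕ) : ℝ) = ∑ j, (L.get j : ℝ) * w j := by rw [hS]; push_cast; rfl
  rw [← hSR] at h
  obtain ⟨J, hJ, hI⟩ := hL.indepW (K := ℚ) (List.ofFn w) (List.length_ofFn) (p1 := 1) (q1 := 0)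
    (r1 := 0) (p2 := 0) (q2 := 1) (r2 := 0) (by norm_num) (M := Wt ((A : ℝ) / B) ((S : ℕ) / B))
      (fun u _ => by unfold aff; positivity) (fun u _ => by unfold aff; positivity)
      (fun u hu => by
        obtain ⟨i, l⟩ := u
        rw [mem_Wt ht] at hu
        rw [zip_sum, ← hS]
        unfold aff
        simp only
        have h2 : (i : ℝ) * B + l * A < ((S : ℕ) : ℝ) := by
          have h3 := mul_lt_mul_of_pos_right hu hB'
          have h4 : ((i : ℝ) + (A : ℝ) / B * l) * B = i * B + l * A := by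
            field_simp
          have h5 : ((S : ℕ) : ℝ) / B * B = ((S : ℕ) : ℝ) := by
            field_simp
          rw [h4, h5] at h3
          exact h3
        have h5 : i * B + l * A < S := by
          exact_mod_cast h2
        have h6 : ((i * B + l * A : ℕ) : ℤ) < ((S : ℕ) : ℤ) := by exact_mod_cast h5
        push_cast at h6 ⊢
        linarith)
  have h1 : Emp w {m : ℤ × ℤ | 0 ≤ m.1 ∧ 0 ≤ m.2 ∧
      (m.1 : ℝ) + (A : ℝ) / B * m.2 < (S : ℕ) / B} := by
    refine Emp_of_Indep (hJ.points w (fun i => Fin.cast (List.length_ofFn) i)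
      (fun i j hij => Fin.cast_injective _ hij) (fun i => by simp; exact le_rfl)) hI ?_ ?_
    · intro i l i' l' hm hi hl
      rw [mem_Wt ht] at hm ⊢
      have h1 : (i' : ℝ) ≤ i := by exact_mod_cast hi
      have h2 : (l' : ℝ) ≤ l := by exact_mod_cast hl
      nlinarith
    · rintro m ⟨h1, h2, h3⟩
      refine ⟨h1, h2, ?_⟩
      rw [mem_Wt ht]
      have e1 : ((m.1.toNat : ℕ) : ℝ) = m.1 := by
        have : ((m.1.toNat : ℕ) : ℤ) = m.1 := Int.toNat_of_nonneg h1
        exact_mod_cast this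
      have e2 : ((m.2.toNat : ℕ) : ℝ) = m.2 := by
        have : ((m.2.toNat : ℕ) : ℤ) = m.2 := Int.toNat_of_nonneg h2
        exact_mod_cast this
      rw [e1, e2]
      exact h3
  refine h1.comap 1 0 0 1 (-⌈α⌉) 0 (by norm_num) ?_
  rintro ⟨a, b⟩ ⟨h2, h3, h4⟩
  simp only at h2 h3 h4
  have h5 : ⌈α⌉ ≤ a := Int.ceil_le.2 (by linarith)
  have h6 : α ≤ ⌈α⌉ := Int.le_ceil α
  refine ⟨by simp only; omega, by simp only; omega, ?_⟩
  simp only
  push_cast
  rw [lt_div_iff₀ hB']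
  have h7 : (1 * (a : ℝ) + 0 * b + -(⌈α⌉ : ℝ) + (A : ℝ) / B * (0 * a + 1 * b + 0)) ≤ β - α := by
    linarith
  nlinarith

end Pool.Agent.TH545.Nag
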